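import Pool.Agent.Helper58.RC.Second

/-! # Bad copies -/

open scoped Classical

namespace Pool.Agent.Helper58.RC

open Pool.Agent.Helper93.RC

variable {n : ℕ} {p : ℝ} {k : ZMod 5 → ℕ}

/-- an outside vertex adjacent to all of two far blocks -/
def Bad1 (φ : Role k ↪ Fin n) (G : SimpleGraph (Fin n)) (i : ZMod 5) (x : Fin n) : Prop :=
  x ∉ Set.range φ ∧ ∀ r : Role k, r.1 = i ∨ r.1 = i + 2 → G.Adj x (φ r)

/-- two vertices which together dominate a far block -/
def Bad2 (φ : Role k ↪ Fin n) (G : SimpleGraph (Fin n)) (i j l : ZMod 5) (a : Fin (k i))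
    (b : Fin (k l)) : Prop :=
  ∀ c : Fin (k j), G.Adj (φ ⟨i, a⟩) (φ ⟨j, c⟩) ∨ G.Adj (φ ⟨j, c⟩) (φ ⟨l, b⟩)

/-- upper bound for the indicator of a bad copy -/
noncomputable def badSum (φ : Role k ↪ Fin n) (G : SimpleGraph (Fin n)) : ℝ :=
  ∑ i : ZMod 5, ∑ x : Fin n, (if Bad1 φ G i x then (1 : ℝ) else 0) +
    ∑ i : ZMod 5, ∑ j : ZMod 5, ∑ l : ZMod 5, if Far i j ∧ Far j l then
      ∑ a : Fin (k i), ∑ b : Fin (k l), (if Bad2 φ G i j l a b then (1 : ℝ) else 0) else 0

theorem ex_bad1 (hb : ST_P0b) (hc : ST_P0c) (h0 : 0 < p) (φ : Role k ↪ Fin n)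
    (i : ZMod 5) (x : Fin n) :
    Ex n p (fun G => ind (Ef φ) G * (if Bad1 φ G i x then 1 else 0)) ≤
      p ^ (E0 k).card * p ^ (k i + k (i + 2)) := by
  by_cases hx : x ∈ Set.range φ
  · have h1 : (fun G => ind (Ef φ) G * (if Bad1 φ G i x then (1 : ℝ) else 0)) =
        fun G => 0 * ind (Ef φ) G := by
      ext G
      rw [if_neg (fun h => h.1 hx)]
      ring
    rw [h1, Ex_mul, zero_mul]
    positivity
  · let F : Finset (Sym2 (Fin n)) :=
      (Finset.univ.filter fun r : Role k => r.1 = i ∨ r.1 = i + 2).image fun r => s(x, φ r)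
    have hinj : Set.InjOn (fun r : Role k => s(x, φ r))
        ((Finset.univ.filter fun r : Role k => r.1 = i ∨ r.1 = i + 2 : Finset (Role k)) :
          Set (Role k)) := by
      intro r _ r' _ h
      rcases Sym2.eq_iff.1 h with ⟨_, h2⟩ | ⟨h1, h2⟩
      · exact φ.injective h2
      · exact absurd ⟨r', h1.symm⟩ hx
    have hcard : F.card = k i + k (i + 2) := by
      rw [Finset.card_image_of_injOn hinj]
      have h1 : (Finset.univ.filter fun r : Role k => r.1 = i ∨ r.1 = i + 2) =
          (Finset.univ.map ⟨fun a : Fin (k i) => (⟨i, a⟩ : Role k),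
            fun a b h => by simpa using h⟩) ∪
          (Finset.univ.map ⟨fun a : Fin (k (i + 2)) => (⟨i + 2, a⟩ : Role k),
            fun a b h => by simpa using h⟩) := by
        ext ⟨j, a⟩
        simp only [Finset.mem_filter, Finset.mem_univ, true_and, Finset.mem_union,
          Finset.mem_map]
        constructor
        · rintro (h | h)
          · subst h; exact Or.inl ⟨a, rfl⟩
          · subst h; exact Or.inr ⟨a, rfl⟩
        · rintro (⟨b, h⟩ | ⟨b, h⟩)
          · left; exact (congrArg Sigma.fst h).symm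
          · right; exact (congrArg Sigma.fst h).symm
      rw [h1, Finset.card_union_of_disjoint, Finset.card_map, Finset.card_map, Finset.card_univ,
        Finset.card_univ, Fintype.card_fin, Fintype.card_fin]
      rw [Finset.disjoint_left]
      intro r h2 h3
      simp only [Finset.mem_map, Finset.mem_univ, true_and] at h2 h3
      obtain ⟨a, rfl⟩ := h2
      obtain ⟨b, h3⟩ := h3
      have h4 : i + 2 = i := congrArg Sigma.fst h3
      have h5 : (2 : ZMod 5) = 0 := by
        have := congrArg (fun z => z - i) h4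
        simpa using this
      exact absurd h5 (by decide)
    have hdisj : Disjoint (Ef φ) F := by
      rw [Finset.disjoint_left]
      intro e he hF
      obtain ⟨r, _, rfl⟩ := Finset.mem_image.1 hF
      obtain ⟨a, b, _, h⟩ := mem_Ef he
      rcases Sym2.eq_iff.1 h with ⟨h1, _⟩ | ⟨h1, _⟩
      · exact hx ⟨a, h1.symm⟩
      · exact hx ⟨b, h1.symm⟩
    have h1 : (fun G => ind (Ef φ) G * (if Bad1 φ G i x then (1 : ℝ) else 0)) =
        fun G => ind (Ef φ ∪ F) G := by
      ext G
      rw [← ind_mul]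
      congr 1
      unfold ind
      have hiff : Bad1 φ G i x ↔ ∀ e ∈ F, e ∈ G.edgeSet := by
        constructor
        · intro h e he
          obtain ⟨r, hr, rfl⟩ := Finset.mem_image.1 he
          exact h.2 r (Finset.mem_filter.1 hr).2
        · intro h
          refine ⟨hx, fun r hr => ?_⟩
          exact h _ (Finset.mem_image.2 ⟨r, by simp [hr], rfl⟩)
      by_cases h2 : Bad1 φ G i x
      · rw [if_pos h2, if_pos (hiff.1 h2)]
      · rw [if_neg h2, if_neg (fun h => h2 (hiff.2 h))]
    rw [h1, Ex_ind hb hc]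
    · rw [Finset.card_union_of_disjoint hdisj, card_Ef, hcard, pow_add]
    · intro e he
      rcases Finset.mem_union.1 he with he | he
      · exact Ef_not_diag e he
      · obtain ⟨r, _, rfl⟩ := Finset.mem_image.1 he
        rw [Sym2.mk_isDiag_iff]
        intro h
        exact hx ⟨r, h.symm⟩

theorem ex_or (hb : ST_P0b) (hc : ST_P0c) {e e' : Sym2 (Fin n)} (he : ¬ e.IsDiag)
    (he' : ¬ e'.IsDiag) (h0 : 0 < p) (h1 : p < 1) :
    Ex n p (fun G => if e ∈ G.edgeSet ∨ e' ∈ G.edgeSet then (1 : ℝ) else 0) ≤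
      2 * p - p ^ 2 := by
  by_cases hee : e = e'
  · subst hee
    simp only [or_self]
    rw [hc n p e he]
    nlinarith
  · have e1 : (fun G : SimpleGraph (Fin n) =>
        if e ∈ G.edgeSet ∨ e' ∈ G.edgeSet then (1 : ℝ) else 0) =
        fun G => (fun G => (fun G : SimpleGraph (Fin n) => if e ∈ G.edgeSet then (1 : ℝ) else 0) G +
          (fun G : SimpleGraph (Fin n) => if e' ∈ G.edgeSet then (1 : ℝ) else 0) G) G -
          ind {e, e'} G := by
      ext G
      unfold ind
      by_cases h2 : e ∈ G.edgeSet <;> by_cases h3 : e' ∈ G.edgeSet <;> simp [h2, h3]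
    rw [e1, Ex_sub, Ex_add, hc n p e he, hc n p e' he', Ex_ind hb hc]
    · rw [Finset.card_pair hee]
      linarith
    · intro f hf
      simp only [Finset.mem_insert, Finset.mem_singleton] at hf
      rcases hf with rfl | rfl
      · exact he
      · exact he'

theorem ex_bad2 (hb : ST_P0b) (hc : ST_P0c) (h0 : 0 < p) (h1 : p < 1) (φ : Role k ↪ Fin n)
    {i j l : ZMod 5} (hij : Far i j) (hjl : Far j l) (a : Fin (k i)) (b : Fin (k l)) :
    Ex n p (fun G => ind (Ef φ) G * (if Bad2 φ G i j l a b then 1 else 0)) ≤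
      p ^ (E0 k).card * (2 * p - p ^ 2) ^ k j := by
  let g : Option (Fin (k j)) → SimpleGraph (Fin n) → ℝ := fun o G =>
    match o with
    | none => ind (Ef φ) G
    | some c => if s(φ ⟨i, a⟩, φ ⟨j, c⟩) ∈ G.edgeSet ∨ s(φ ⟨j, c⟩, φ ⟨l, b⟩) ∈ G.edgeSet
        then (1 : ℝ) else 0
  let D : Option (Fin (k j)) → Set (Sym2 (Fin n)) := fun o =>
    match o with
    | none => (Ef φ : Set (Sym2 (Fin n)))
    | some c => {s(φ ⟨i, a⟩, φ ⟨j, c⟩), s(φ ⟨j, c⟩, φ ⟨l, b⟩)}
  have hprod : (fun G => ind (Ef φ) G * (if Bad2 φ G i j l a b then (1 : ℝ) else 0)) =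
      fun G => ∏ o ∈ (Finset.univ : Finset (Option (Fin (k j)))), g o G := by
    ext G
    rw [Fintype.prod_option]
    congr 1
    simp only [g]
    by_cases h : Bad2 φ G i j l a b
    · rw [if_pos h, Finset.prod_eq_one]
      intro c _
      exact if_pos (h c)
    · rw [if_neg h]
      unfold Bad2 at h
      push Not at h
      obtain ⟨c, hc'⟩ := h
      symm
      apply Finset.prod_eq_zero (Finset.mem_univ c)
      rw [if_neg]
      rintro (h2 | h2)
      · exact hc'.1 h2
      · exact hc'.2 h2
  have hne1 : ∀ c : Fin (k j), (⟨i, a⟩ : Role k) ≠ ⟨j, c⟩ := by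
    intro c h
    exact hij.1 (congrArg Sigma.fst h).symm
  have hne2 : ∀ c : Fin (k j), (⟨j, c⟩ : Role k) ≠ ⟨l, b⟩ := by
    intro c h
    exact hjl.1 (congrArg Sigma.fst h).symm
  have hnr1 : ∀ c : Fin (k j), ¬ radj (⟨i, a⟩ : Role k) ⟨j, c⟩ := by
    rintro c ⟨_, h | h | h⟩
    · exact hij.1 h
    · exact hij.2.1 h
    · exact hij.2.2 h
  have hnr2 : ∀ c : Fin (k j), ¬ radj (⟨j, c⟩ : Role k) ⟨l, b⟩ := by
    rintro c ⟨_, h | h | h⟩
    · exact hjl.1 h
    · exact hjl.2.1 h
    · exact hjl.2.2 h
  have hEf : ∀ r r' : Role k, ¬ radj r r' → s(φ r, φ r') ∉ Ef φ := by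
    intro r r' h he
    obtain ⟨u, v, huv, heq⟩ := mem_Ef he
    rcases Sym2.eq_iff.1 heq with ⟨h2, h3⟩ | ⟨h2, h3⟩
    · rw [φ.injective h2, φ.injective h3] at h; exact h huv
    · rw [φ.injective h2, φ.injective h3] at h; exact h (radj_symm huv)
  rw [hprod, hb n p (Option (Fin (k j))) Finset.univ g D]
  · rw [Fintype.prod_option]
    have e1 : Ex n p (g none) = p ^ (E0 k).card := by
      simp only [g]
      rw [Ex_ind hb hc (Ef φ) Ef_not_diag, card_Ef]
    rw [e1]
    refine mul_le_mul_of_nonneg_left ?_ (by positivity)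
    calc ∏ c : Fin (k j), Ex n p (g (some c)) ≤ ∏ _c : Fin (k j), (2 * p - p ^ 2) := by
          refine Finset.prod_le_prod (fun c _ => ?_) fun c _ => ?_
          · refine Finset.sum_nonneg fun G _ => mul_nonneg (wt_nonneg h0.le h1.le G) ?_
            simp only [g]
            split_ifs <;> norm_num
          · refine ex_or hb hc ?_ ?_ h0 h1
            · rw [Sym2.mk_isDiag_iff]
              intro h
              exact hne1 c (φ.injective h)
            · rw [Sym2.mk_isDiag_iff]
              intro h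
              exact hne2 c (φ.injective h)
      _ = _ := by rw [Finset.prod_const, Finset.card_univ, Fintype.card_fin]
  · intro o _
    rcases o with _ | c
    · exact ind_dep (Ef φ)
    · intro G G' h
      have h2 := h s(φ ⟨i, a⟩, φ ⟨j, c⟩) (by simp [D])
      have h3 := h s(φ ⟨j, c⟩, φ ⟨l, b⟩) (by simp [D])
      simp only [g, h2, h3]
  · intro o _ o' _ hne
    rw [Set.disjoint_left]
    intro e he he'
    rcases o with _ | c <;> rcases o' with _ | c'
    · exact hne rfl
    · simp only [D, Set.mem_insert_iff, Set.mem_singleton_iff] at he'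
      rcases he' with rfl | rfl
      · exact hEf _ _ (hnr1 c') he
      · exact hEf _ _ (hnr2 c') he
    · simp only [D, Set.mem_insert_iff, Set.mem_singleton_iff] at he
      rcases he with rfl | rfl
      · exact hEf _ _ (hnr1 c) he'
      · exact hEf _ _ (hnr2 c) he'
    · simp only [D, Set.mem_insert_iff, Set.mem_singleton_iff] at he he'
      apply hne
      congr 1
      have hcc : ∀ c c' : Fin (k j), (⟨j, c⟩ : Role k) = ⟨j, c'⟩ → c = c' := by
        intro c c' h
        simpa using h
      rcases he with rfl | rfl <;> rcases he' with he' | he'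
      · rcases Sym2.eq_iff.1 he' with ⟨_, h3⟩ | ⟨h2, _⟩
        · exact hcc _ _ (φ.injective h3)
        · exact absurd (φ.injective h2) (hne1 c')
      · rcases Sym2.eq_iff.1 he' with ⟨h2, _⟩ | ⟨_, h3⟩
        · exact absurd (φ.injective h2) (hne1 c')
        · exact hcc _ _ (φ.injective h3)
      · rcases Sym2.eq_iff.1 he' with ⟨h2, _⟩ | ⟨h2, _⟩
        · exact absurd (φ.injective h2).symm (hne1 c)
        · exact hcc _ _ (φ.injective h2)
      · rcases Sym2.eq_iff.1 he' with ⟨h2, _⟩ | ⟨h2, _⟩
        · exact hcc _ _ (φ.injective h2)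
        · exact absurd (φ.injective h2) (hne2 c)

/-- expected number of bad copies -/
theorem ex_badSum (hb : ST_P0b) (hc : ST_P0c) (h0 : 0 < p) (h1 : p < 1) :
    Ex n p (fun G => ∑ φ : Role k ↪ Fin n, ind (Ef φ) G * badSum φ G) ≤
      mu n p k * bad n p k := by
  rw [Ex_sum]
  have key : ∀ φ : Role k ↪ Fin n, Ex n p (fun G => ind (Ef φ) G * badSum φ G) ≤
      p ^ (E0 k).card * bad n p k := by
    intro φ
    have e1 : (fun G => ind (Ef φ) G * badSum φ G) = fun G =>
        (fun G => ∑ i : ZMod 5, (fun G => ∑ x : Fin n,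
          (fun G => ind (Ef φ) G * (if Bad1 φ G i x then (1 : ℝ) else 0)) G) G) G +
        (fun G => ∑ i : ZMod 5, (fun G => ∑ j : ZMod 5, (fun G => ∑ l : ZMod 5,
          (fun G => if Far i j ∧ Far j l then (∑ a : Fin (k i), ∑ b : Fin (k l),
            (ind (Ef φ) G * (if Bad2 φ G i j l a b then (1 : ℝ) else 0))) else 0) G) G) G) G := by
      ext G
      unfold badSum
      rw [mul_add]
      congr 1
      · simp only [Finset.mul_sum]
      · simp only [Finset.mul_sum]
        refine Finset.sum_congr rfl fun i _ => Finset.sum_congr rfl fun j _ =>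
          Finset.sum_congr rfl fun l _ => ?_
        split_ifs with h
        · simp only [Finset.mul_sum]
        · ring
    rw [e1, Ex_add, Ex_sum, Ex_sum]
    unfold bad
    rw [mul_add, Finset.mul_sum, Finset.mul_sum]
    refine add_le_add (Finset.sum_le_sum fun i _ => ?_) (Finset.sum_le_sum fun i _ => ?_)
    · rw [Ex_sum]
      calc ∑ x : Fin n, Ex n p (fun G => ind (Ef φ) G * (if Bad1 φ G i x then (1 : ℝ) else 0))
          ≤ ∑ _x : Fin n, p ^ (E0 k).card * p ^ (k i + k (i + 2)) :=
            Finset.sum_le_sum fun x _ => ex_bad1 hb hc h0 φ i x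
        _ = _ := by
            rw [Finset.sum_const, Finset.card_univ, Fintype.card_fin, nsmul_eq_mul]
            ring
    · rw [Ex_sum, Finset.mul_sum]
      refine Finset.sum_le_sum fun j _ => ?_
      rw [Ex_sum, Finset.mul_sum]
      refine Finset.sum_le_sum fun l _ => ?_
      by_cases h : Far i j ∧ Far j l
      · simp only [if_pos h]
        rw [Ex_sum]
        calc ∑ a : Fin (k i), Ex n p (fun G => ∑ b : Fin (k l),
              (ind (Ef φ) G * (if Bad2 φ G i j l a b then (1 : ℝ) else 0)))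
            ≤ ∑ _a : Fin (k i), ∑ _b : Fin (k l),
                p ^ (E0 k).card * (2 * p - p ^ 2) ^ k j := by
              refine Finset.sum_le_sum fun a _ => ?_
              rw [Ex_sum]
              exact Finset.sum_le_sum fun b _ => ex_bad2 hb hc h0 h1 φ h.1 h.2 a b
          _ = _ := by
              rw [Finset.sum_const, Finset.sum_const, Finset.card_univ, Finset.card_univ,
                Fintype.card_fin, Fintype.card_fin, nsmul_eq_mul, nsmul_eq_mul]
              ring
      · simp only [if_neg h]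
        have : Ex n p (fun _ => (0 : ℝ)) = 0 := by
          simp [Ex]
        rw [this, mul_zero]
  calc ∑ φ : Role k ↪ Fin n, Ex n p (fun G => ind (Ef φ) G * badSum φ G)
      ≤ ∑ _φ : Role k ↪ Fin n, p ^ (E0 k).card * bad n p k := Finset.sum_le_sum fun φ _ => key φ
    _ = mu n p k * bad n p k := by
        rw [Finset.sum_const, Finset.card_univ, card_emb, nsmul_eq_mul]
        unfold mu
        ring

end Pool.Agent.Helper58.RC
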