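import Pool.Agent.Helper93.RC.Spec

/-! # Basic facts on the weight of random graphs (from P0a, P0b, P0c) -/

open scoped Classical

namespace Pool.Agent.Helper58.RC

open Pool.Agent.Helper93.RC

variable {n : ℕ} {p : ℝ}

theorem wt_nonneg (h0 : 0 ≤ p) (h1 : p ≤ 1) (G : SimpleGraph (Fin n)) : 0 ≤ wt n p G :=
  mul_nonneg (pow_nonneg h0 _) (pow_nonneg (by linarith) _)

theorem Ex_mono (h0 : 0 ≤ p) (h1 : p ≤ 1) {f g : SimpleGraph (Fin n) → ℝ}
    (h : ∀ G, f G ≤ g G) : Ex n p f ≤ Ex n p g :=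
  Finset.sum_le_sum fun G _ => mul_le_mul_of_nonneg_left (h G) (wt_nonneg h0 h1 G)

theorem Ex_add (f g : SimpleGraph (Fin n) → ℝ) :
    Ex n p (fun G => f G + g G) = Ex n p f + Ex n p g := by
  simp only [Ex, mul_add, Finset.sum_add_distrib]

theorem Ex_sub (f g : SimpleGraph (Fin n) → ℝ) :
    Ex n p (fun G => f G - g G) = Ex n p f - Ex n p g := by
  simp only [Ex, mul_sub, Finset.sum_sub_distrib]

theorem Ex_mul (c : ℝ) (f : SimpleGraph (Fin n) → ℝ) :
    Ex n p (fun G => c * f G) = c * Ex n p f := by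
  simp only [Ex, Finset.mul_sum]
  refine Finset.sum_congr rfl fun G _ => ?_
  ring

theorem Ex_sum {ι : Type*} (s : Finset ι) (f : ι → SimpleGraph (Fin n) → ℝ) :
    Ex n p (fun G => ∑ i ∈ s, f i G) = ∑ i ∈ s, Ex n p (f i) := by
  simp only [Ex, Finset.mul_sum]
  rw [Finset.sum_comm]

theorem gnp_eq (A : Set (SimpleGraph (Fin n))) :
    gnp n p A = Ex n p (fun G => if G ∈ A then 1 else 0) := by
  unfold gnp Ex wt
  refine Finset.sum_congr rfl fun G _ => ?_
  by_cases h : G ∈ A
  · simp [if_pos h]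
  · simp [if_neg h]

theorem one_sub_gnp (hP : ST_P0a) (A : Set (SimpleGraph (Fin n))) :
    1 - gnp n p A = Ex n p (fun G => if G ∈ A then 0 else 1) := by
  have h1 : (fun G : SimpleGraph (Fin n) => if G ∈ A then (0 : ℝ) else 1) =
      fun G => (fun _ => (1 : ℝ)) G - (fun G => if G ∈ A then (1 : ℝ) else 0) G := by
    ext G
    by_cases h : G ∈ A
    · simp [h]
    · simp [h]
  rw [gnp_eq, h1, Ex_sub, hP n p]

/-- all pairs of `F` are edges -/
noncomputable def ind (F : Finset (Sym2 (Fin n))) (G : SimpleGraph (Fin n)) : ℝ :=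
  if (∀ e ∈ F, e ∈ G.edgeSet) then 1 else 0

theorem ind_eq_prod (F : Finset (Sym2 (Fin n))) (G : SimpleGraph (Fin n)) :
    ind F G = ∏ e ∈ F, (if e ∈ G.edgeSet then (1 : ℝ) else 0) := by
  unfold ind
  split_ifs with h
  · rw [Finset.prod_eq_one]
    intro e he
    rw [if_pos (h e he)]
  · push Not at h
    obtain ⟨e, he, h⟩ := h
    rw [Finset.prod_eq_zero he]
    rw [if_neg h]

theorem ind_mul (F F' : Finset (Sym2 (Fin n))) (G : SimpleGraph (Fin n)) :
    ind F G * ind F' G = ind (F ∪ F') G := by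
  unfold ind
  by_cases h : ∀ e ∈ F, e ∈ G.edgeSet
  · by_cases h' : ∀ e ∈ F', e ∈ G.edgeSet
    · rw [if_pos h, if_pos h', if_pos (by
        intro e he
        rcases Finset.mem_union.1 he with he | he
        · exact h e he
        · exact h' e he)]
      norm_num
    · rw [if_pos h, if_neg h', if_neg (by
        intro hc
        exact h' fun e he => hc e (Finset.mem_union_right _ he))]
      norm_num
  · have h2 : ¬ ∀ e ∈ F ∪ F', e ∈ G.edgeSet := by
      intro hc
      exact h fun e he => hc e (Finset.mem_union_left _ he)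
    rw [if_neg h, if_neg h2]
    norm_num

theorem ind_nonneg (F : Finset (Sym2 (Fin n))) (G : SimpleGraph (Fin n)) : 0 ≤ ind F G := by
  unfold ind
  split_ifs <;> norm_num

theorem ind_dep (F : Finset (Sym2 (Fin n))) : DepOn (ind F) (F : Set (Sym2 (Fin n))) := by
  intro G G' h
  unfold ind
  have : (∀ e ∈ F, e ∈ G.edgeSet) ↔ (∀ e ∈ F, e ∈ G'.edgeSet) := by
    constructor
    · intro h1 e he
      exact (h e he).1 (h1 e he)
    · intro h1 e he
      exact (h e he).2 (h1 e he)
  by_cases h1 : ∀ e ∈ F, e ∈ G.edgeSet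
  · rw [if_pos h1, if_pos (this.1 h1)]
  · rw [if_neg h1, if_neg (fun h2 => h1 (this.2 h2))]

theorem Ex_ind (hb : ST_P0b) (hc : ST_P0c) (F : Finset (Sym2 (Fin n)))
    (hF : ∀ e ∈ F, ¬ e.IsDiag) : Ex n p (ind F) = p ^ F.card := by
  have h1 : ind F = fun G => ∏ e ∈ F, (if e ∈ G.edgeSet then (1 : ℝ) else 0) := by
    ext G
    exact ind_eq_prod F G
  rw [h1, hb n p (Sym2 (Fin n)) F (fun e G => if e ∈ G.edgeSet then (1 : ℝ) else 0)
    (fun e => {e})]
  · rw [Finset.prod_congr rfl (fun e he => hc n p e (hF e he)), Finset.prod_const]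
  · intro e _ G G' h
    have := h e rfl
    simp only [this]
  · intro e _ e' _ hne
    simpa using hne

end Pool.Agent.Helper58.RC
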