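import Pool.Agent.Helper58.RC.Basic

/-! # Copies of the blow-up and their overlaps -/

open scoped Classical

namespace Pool.Agent.Helper58.RC

open Pool.Agent.Helper93.RC

variable {n : ℕ} {k : ZMod 5 → ℕ}

theorem radj_symm {a b : Role k} (h : radj a b) : radj b a := by
  refine ⟨h.1.symm, ?_⟩
  rcases h.2 with h1 | h1 | h1
  · exact Or.inl h1.symm
  · exact Or.inr (Or.inr h1)
  · exact Or.inr (Or.inl h1)

/-- pairs of roles -/
noncomputable def E0 (k : ZMod 5 → ℕ) : Finset (Sym2 (Role k)) :=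
  (Finset.univ.filter fun x : Role k × Role k => radj x.1 x.2).image fun x => s(x.1, x.2)

theorem mem_E0 {a b : Role k} : s(a, b) ∈ E0 k ↔ radj a b := by
  unfold E0
  rw [Finset.mem_image]
  constructor
  · rintro ⟨⟨c, d⟩, h, he⟩
    rw [Finset.mem_filter] at h
    rcases Sym2.eq_iff.1 he with ⟨h1, h2⟩ | ⟨h1, h2⟩
    · simp only at h1 h2
      rw [← h1, ← h2]; exact h.2
    · simp only at h1 h2
      rw [← h1, ← h2]; exact radj_symm h.2
  · intro h
    exact ⟨(a, b), by simp [h], rfl⟩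

/-- the pairs of a copy -/
noncomputable def Ef (φ : Role k ↪ Fin n) : Finset (Sym2 (Fin n)) :=
  (E0 k).map ⟨Sym2.map φ, Sym2.map.injective φ.injective⟩

theorem card_Ef (φ : Role k ↪ Fin n) : (Ef φ).card = (E0 k).card := by
  unfold Ef
  rw [Finset.card_map]

theorem mem_Ef {φ : Role k ↪ Fin n} {e : Sym2 (Fin n)} (h : e ∈ Ef φ) :
    ∃ a b, radj a b ∧ e = s(φ a, φ b) := by
  unfold Ef at h
  rw [Finset.mem_map] at h
  obtain ⟨e0, he0, rfl⟩ := h
  induction e0 using Sym2.ind with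
  | _ a b => exact ⟨a, b, mem_E0.1 he0, rfl⟩

theorem mem_Ef_of {φ : Role k ↪ Fin n} {a b : Role k} (h : radj a b) :
    s(φ a, φ b) ∈ Ef φ := by
  unfold Ef
  rw [Finset.mem_map]
  exact ⟨s(a, b), mem_E0.2 h, rfl⟩

theorem Ef_not_diag {φ : Role k ↪ Fin n} : ∀ e ∈ Ef φ, ¬ e.IsDiag := by
  intro e he
  obtain ⟨a, b, h, rfl⟩ := mem_Ef he
  rw [Sym2.mk_isDiag_iff]
  intro h1
  exact h.1 (φ.injective h1)

/-- roles of `ψ` whose vertex lies in the copy `φ` -/
noncomputable def ovl (φ ψ : Role k ↪ Fin n) : Finset (Role k) :=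
  Finset.univ.filter fun r => ψ r ∈ Set.range φ

theorem card_inter_le (φ ψ : Role k ↪ Fin n) : (Ef φ ∩ Ef ψ).card ≤ eT (ovl φ ψ) := by
  unfold eT
  rw [Nat.le_div_iff_mul_le (by norm_num)]
  set P := ((ovl φ ψ) ×ˢ (ovl φ ψ)).filter fun x => radj x.1 x.2 with hP
  set A := Ef φ ∩ Ef ψ with hA
  let f : Role k × Role k → Sym2 (Fin n) := fun x => s(ψ x.1, ψ x.2)
  have h1 : (P.filter fun x => f x ∈ A).card = ∑ e ∈ A, (P.filter fun x => f x = e).card := by
    rw [Finset.card_eq_sum_card_fiberwise (f := f) (t := A)]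
    · refine Finset.sum_congr rfl fun e he => ?_
      congr 1
      ext x
      simp only [Finset.mem_filter]
      constructor
      · rintro ⟨⟨h1, _⟩, h2⟩; exact ⟨h1, h2⟩
      · rintro ⟨h1, h2⟩; exact ⟨⟨h1, by rw [h2]; exact he⟩, h2⟩
    · intro x hx
      simp only [Finset.coe_filter, Set.mem_ofPred_eq] at hx
      exact hx.2
  have h2 : ∀ e ∈ A, 2 ≤ (P.filter fun x => f x = e).card := by
    intro e he
    rw [hA, Finset.mem_inter] at he
    obtain ⟨a, b, hab, rfl⟩ := mem_Ef he.2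
    obtain ⟨c, d, hcd, hce⟩ := mem_Ef he.1
    have ha : a ∈ ovl φ ψ ∧ b ∈ ovl φ ψ := by
      rcases Sym2.eq_iff.1 hce with ⟨h3, h4⟩ | ⟨h3, h4⟩
      · simp only [ovl, Finset.mem_filter, Finset.mem_univ, true_and]
        exact ⟨⟨c, h3.symm⟩, ⟨d, h4.symm⟩⟩
      · simp only [ovl, Finset.mem_filter, Finset.mem_univ, true_and]
        exact ⟨⟨d, h3.symm⟩, ⟨c, h4.symm⟩⟩
    have hsub : ({(a, b), (b, a)} : Finset (Role k × Role k)) ⊆
        P.filter fun x => f x = s(ψ a, ψ b) := by
      intro x hx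
      simp only [Finset.mem_insert, Finset.mem_singleton] at hx
      rcases hx with rfl | rfl
      · simp only [Finset.mem_filter, hP, Finset.mem_product]
        exact ⟨⟨⟨ha.1, ha.2⟩, hab⟩, rfl⟩
      · simp only [Finset.mem_filter, hP, Finset.mem_product]
        exact ⟨⟨⟨ha.2, ha.1⟩, radj_symm hab⟩, Sym2.eq_swap⟩
    have hcard : ({(a, b), (b, a)} : Finset (Role k × Role k)).card = 2 := by
      rw [Finset.card_pair]
      intro h
      exact hab.1 (Prod.mk.inj h).1
    calc 2 = _ := hcard.symm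
      _ ≤ _ := Finset.card_le_card hsub
  calc A.card * 2 = ∑ _e ∈ A, 2 := by rw [Finset.sum_const, smul_eq_mul]
    _ ≤ ∑ e ∈ A, (P.filter fun x => f x = e).card := Finset.sum_le_sum h2
    _ = (P.filter fun x => f x ∈ A).card := h1.symm
    _ ≤ P.card := Finset.card_le_card (Finset.filter_subset _ _)

theorem card_role : Fintype.card (Role k) = vk k := by
  rw [Fintype.card_sigma]
  simp [vk]

theorem card_emb : Fintype.card (Role k ↪ Fin n) = n.descFactorial (vk k) := by
  rw [Fintype.card_embedding_eq, Fintype.card_fin, card_role]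

/-- the number of `ψ` with a given overlap -/
theorem card_ovl_le (φ : Role k ↪ Fin n) (T : Finset (Role k)) :
    (Finset.univ.filter fun ψ : Role k ↪ Fin n => ovl φ ψ = T).card ≤
      vk k ^ T.card * n.descFactorial (vk k - T.card) := by
  let R := {r : Role k // r ∈ T}
  let R' := {r : Role k // r ∉ T}
  have hR : Fintype.card (R → Role k) = vk k ^ T.card := by
    rw [Fintype.card_fun, card_role]
    congr 1
    exact Fintype.card_coe T
  have hR' : Fintype.card (R' ↪ Fin n) = n.descFactorial (vk k - T.card) := by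
    rw [Fintype.card_embedding_eq, Fintype.card_fin]
    congr 1
    have : Fintype.card R' = Fintype.card (Role k) - Fintype.card R := by
      exact Fintype.card_subtype_compl _
    rw [this, card_role]
    congr 1
    exact Fintype.card_coe T
  rw [← hR, ← hR', ← Fintype.card_prod, ← Finset.card_univ]
  have hch : ∀ ψ : Role k ↪ Fin n, ovl φ ψ = T → ∀ r : R, ∃ a : Role k, φ a = ψ r.1 := by
    intro ψ h r
    have h2 : r.1 ∈ ovl φ ψ := by rw [h]; exact r.2
    simpa [ovl] using h2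
  let F : (Role k ↪ Fin n) → (R → Role k) × (R' ↪ Fin n) := fun ψ =>
    (fun r => if h : ∃ a : Role k, φ a = ψ r.1 then h.choose else r.1,
      ⟨fun r => ψ r.1, fun r r' h => Subtype.ext (ψ.injective h)⟩)
  refine Finset.card_le_card_of_injOn F (fun _ _ => Finset.mem_coe.2 (Finset.mem_univ _)) ?_
  intro ψ hψ ψ' hψ' he
  simp only [Finset.coe_filter, Finset.mem_univ, true_and, Set.mem_ofPred_eq] at hψ hψ'
  have e1 := congrArg Prod.fst he
  have e2 := congrArg Prod.snd he
  simp only [F] at e1 e2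
  ext r
  by_cases hr : r ∈ T
  · have h1 : ∃ a : Role k, φ a = ψ r := hch ψ hψ ⟨r, hr⟩
    have h2 : ∃ a : Role k, φ a = ψ' r := hch ψ' hψ' ⟨r, hr⟩
    have h3 := congrFun e1 ⟨r, hr⟩
    simp only at h3
    rw [dif_pos h1, dif_pos h2] at h3
    have h4 := h1.choose_spec
    rw [h3] at h4
    exact congrArg Fin.val (h4.symm.trans h2.choose_spec)
  · have h3 := DFunLike.congr_fun e2 (⟨r, hr⟩ : R')
    exact congrArg Fin.val h3

theorem count_real (hn : 2 * vk k ≤ n) (hv : 0 < vk k) {t : ℕ} (ht : t ≤ vk k) :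
    ((vk k ^ t * n.descFactorial (vk k - t) : ℕ) : ℝ) ≤
      (n.descFactorial (vk k) : ℝ) * (2 * (vk k : ℝ) / n) ^ t := by
  have hn0 : (0 : ℝ) < n := by
    have : 0 < n := by omega
    exact_mod_cast this
  have h1 : (n - (vk k - t)).descFactorial t * n.descFactorial (vk k - t) =
      n.descFactorial (vk k) := by
    have := @Nat.descFactorial_mul_descFactorial (vk k - t) (vk k) n (by omega)
    rwa [show vk k - (vk k - t) = t by omega] at this
  have h2 : (n - vk k + 1) ^ t ≤ (n - (vk k - t)).descFactorial t := by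
    have := Nat.pow_sub_le_descFactorial (n - (vk k - t)) t
    rwa [show n - (vk k - t) + 1 - t = n - vk k + 1 by omega] at this
  have h3 : ((n : ℝ) / 2) ^ t ≤ ((n - (vk k - t)).descFactorial t : ℝ) := by
    calc ((n : ℝ) / 2) ^ t ≤ ((n - vk k + 1 : ℕ) : ℝ) ^ t := by
          apply pow_le_pow_left₀ (by positivity)
          have h4 : n ≤ 2 * (n - vk k + 1) := by omega
          have h5 : (n : ℝ) ≤ 2 * ((n - vk k + 1 : ℕ) : ℝ) := by exact_mod_cast h4
          linarith
      _ ≤ _ := by exact_mod_cast h2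
  rw [← h1]
  push_cast
  have h6 : (2 * (vk k : ℝ) / n) ^ t = (vk k : ℝ) ^ t / ((n : ℝ) / 2) ^ t := by
    rw [← div_pow]
    congr 1
    field_simp
  rw [h6, mul_div_assoc', le_div_iff₀ (by positivity)]
  have h7 : (0 : ℝ) ≤ (vk k : ℝ) ^ t * (n.descFactorial (vk k - t) : ℝ) := by positivity
  nlinarith [mul_le_mul_of_nonneg_left h3 h7]

end Pool.Agent.Helper58.RC
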