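import Pool.Agent.Helper58.RC.Bad

/-! # The second moment lemma (P1) -/

open scoped Classical

namespace Pool.Agent.Helper58.RC

open Pool.Agent.Helper93.RC

variable {n : ℕ} {p : ℝ} {k : ZMod 5 → ℕ}

/-- the blocks of a copy -/
noncomputable def blk (φ : Role k ↪ Fin n) (i : ZMod 5) : Finset (Fin n) :=
  Finset.univ.image fun a : Fin (k i) => φ ⟨i, a⟩

theorem mem_blk {φ : Role k ↪ Fin n} {i : ZMod 5} {x : Fin n} :
    x ∈ blk φ i ↔ ∃ a : Fin (k i), φ ⟨i, a⟩ = x := by
  simp [blk]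

theorem far_iff : ∀ i j : ZMod 5, Far i j ↔ (j = i + 2 ∨ i = j + 2) := by
  unfold Far
  decide

theorem far_comm (i j : ZMod 5) : Far i j ↔ Far j i := by
  rw [far_iff, far_iff]
  exact Or.comm

theorem zmod_aux : ∀ i s : ZMod 5, s ≠ i → s ≠ i + 2 → ¬ (i = s + 2 ∨ s = i + 2) →
    ¬ (i + 2 = s + 2 ∨ s = i + 2 + 2) → s = i + 1 := by decide

theorem zmod_aux' : ∀ i : ZMod 5, i ≠ i + 1 := by decide

/-- a good copy gives a good configuration -/
theorem conf_of_good (hk : ∀ i, 1 ≤ k i) {G : SimpleGraph (Fin n)} (φ : Role k ↪ Fin n)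
    (hφ : ind (Ef φ) G ≠ 0) (h1 : ∀ i x, ¬ Bad1 φ G i x)
    (h2 : ∀ i j l a b, Far i j → Far j l → ¬ Bad2 φ G i j l a b) : HasConf G := by
  have hadj : ∀ r r' : Role k, radj r r' → G.Adj (φ r) (φ r') := by
    intro r r' h
    unfold ind at hφ
    have h3 : ∀ e ∈ Ef φ, e ∈ G.edgeSet := by
      by_contra hcon
      rw [if_neg hcon] at hφ
      exact hφ rfl
    exact h3 _ (mem_Ef_of h)
  have mix : ∀ i j l, Far i j → Far j l → ∀ x ∈ blk φ i, ∀ y ∈ blk φ l,
      ∃ w ∈ blk φ j, ¬ G.Adj x w ∧ ¬ G.Adj w y := by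
    intro i j l hij hjl x hx y hy
    obtain ⟨a, rfl⟩ := mem_blk.1 hx
    obtain ⟨b, rfl⟩ := mem_blk.1 hy
    have h3 := h2 i j l a b hij hjl
    unfold Bad2 at h3
    push Not at h3
    obtain ⟨c, hc⟩ := h3
    exact ⟨φ ⟨j, c⟩, mem_blk.2 ⟨c, rfl⟩, hc.1, hc.2⟩
  -- a vertex adjacent to two far blocks lies in the block between them
  have key : ∀ i : ZMod 5, ∀ z : Fin n, (∀ x ∈ blk φ i, G.Adj z x) →
      (∀ x ∈ blk φ (i + 2), G.Adj z x) → z ∈ blk φ (i + 1) := by
    intro i z hz1 hz2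
    have hz : z ∈ Set.range φ := by
      by_contra hcon
      apply h1 i z
      refine ⟨hcon, ?_⟩
      rintro ⟨j, a⟩ (h3 | h3)
      · simp only at h3; subst h3
        exact hz1 _ (mem_blk.2 ⟨a, rfl⟩)
      · simp only at h3; subst h3
        exact hz2 _ (mem_blk.2 ⟨a, rfl⟩)
    obtain ⟨⟨s, c⟩, rfl⟩ := hz
    have hzs : φ ⟨s, c⟩ ∈ blk φ s := mem_blk.2 ⟨c, rfl⟩
    have hs1 : s ≠ i := by
      rintro rfl
      exact G.loopless.irrefl _ (hz1 _ hzs)
    have hs2 : s ≠ i + 2 := by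
      rintro rfl
      exact G.loopless.irrefl _ (hz2 _ hzs)
    have hs3 : ¬ Far s i := by
      intro hf
      obtain ⟨w, hw, hw1, _⟩ := mix s i s hf ((far_comm _ _).1 hf) _ hzs _ hzs
      exact hw1 (hz1 w hw)
    have hs4 : ¬ Far s (i + 2) := by
      intro hf
      obtain ⟨w, hw, hw1, _⟩ := mix s (i + 2) s hf ((far_comm _ _).1 hf) _ hzs _ hzs
      exact hw1 (hz2 w hw)
    have hs : s = i + 1 := by
      rw [far_iff] at hs3 hs4
      exact zmod_aux i s hs1 hs2 hs3 hs4
    subst hs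
    exact hzs
  have hclique : ∀ i, ∀ x ∈ blk φ i, ∀ y ∈ blk φ i, x ≠ y → G.Adj x y := by
    intro i x hx y hy hxy
    obtain ⟨a, rfl⟩ := mem_blk.1 hx
    obtain ⟨b, rfl⟩ := mem_blk.1 hy
    refine hadj _ _ ⟨?_, Or.inl rfl⟩
    intro h
    exact hxy (by rw [h])
  refine ⟨5, blk φ, le_rfl, ?_, ?_, hclique, ?_, mix, ?_⟩
  · intro i
    exact ⟨φ ⟨i, ⟨0, hk i⟩⟩, mem_blk.2 ⟨⟨0, hk i⟩, rfl⟩⟩
  · intro i j hij x hx hx'
    obtain ⟨a, rfl⟩ := mem_blk.1 hx
    obtain ⟨b, h⟩ := mem_blk.1 hx'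
    exact hij (congrArg Sigma.fst (φ.injective h)).symm
  · intro i x hx y hy
    obtain ⟨a, rfl⟩ := mem_blk.1 hx
    obtain ⟨b, rfl⟩ := mem_blk.1 hy
    refine hadj _ _ ⟨?_, Or.inr (Or.inl rfl)⟩
    intro h
    have h3 : i = i + 1 := congrArg Sigma.fst h
    exact zmod_aux' i h3
  · intro i j hij z z' hz1 hz2 hz1' hz2' hne
    rcases (far_iff i j).1 hij with rfl | rfl
    · exact hclique (i + 1) z (key i z hz1 hz2) z' (key i z' hz1' hz2') hne
    · exact hclique (j + 1) z (key j z hz2 hz1) z' (key j z' hz2' hz1') hne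

theorem badSum_ge_one {φ : Role k ↪ Fin n} {G : SimpleGraph (Fin n)}
    (h : (∃ i x, Bad1 φ G i x) ∨ ∃ i j l a b, Far i j ∧ Far j l ∧ Bad2 φ G i j l a b) :
    1 ≤ badSum φ G := by
  have e1 : 0 ≤ ∑ i : ZMod 5, ∑ x : Fin n, (if Bad1 φ G i x then (1 : ℝ) else 0) :=
    Finset.sum_nonneg fun i _ => Finset.sum_nonneg fun x _ => by split_ifs <;> norm_num
  have e2' : ∀ i j l : ZMod 5, (0 : ℝ) ≤ (if Far i j ∧ Far j l then
      ∑ a : Fin (k i), ∑ b : Fin (k l), (if Bad2 φ G i j l a b then (1 : ℝ) else 0) else 0) := by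
    intro i j l
    split_ifs
    · exact Finset.sum_nonneg fun a _ => Finset.sum_nonneg fun b _ => by split_ifs <;> norm_num
    · exact le_rfl
  have e2 : 0 ≤ ∑ i : ZMod 5, ∑ j : ZMod 5, ∑ l : ZMod 5, (if Far i j ∧ Far j l then
      ∑ a : Fin (k i), ∑ b : Fin (k l), (if Bad2 φ G i j l a b then (1 : ℝ) else 0) else 0) :=
    Finset.sum_nonneg fun i _ => Finset.sum_nonneg fun j _ => Finset.sum_nonneg fun l _ =>
      e2' i j l
  unfold badSum
  rcases h with ⟨i, x, h⟩ | ⟨i, j, l, a, b, h3, h4, h⟩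
  · have h5 : (1 : ℝ) ≤ ∑ i : ZMod 5, ∑ x : Fin n, (if Bad1 φ G i x then (1 : ℝ) else 0) := by
      calc (1 : ℝ) = (if Bad1 φ G i x then (1 : ℝ) else 0) := by rw [if_pos h]
        _ ≤ ∑ x : Fin n, (if Bad1 φ G i x then (1 : ℝ) else 0) :=
            Finset.single_le_sum (f := fun x => (if Bad1 φ G i x then (1 : ℝ) else 0))
              (fun x _ => by split_ifs <;> norm_num) (Finset.mem_univ x)
        _ ≤ _ := Finset.single_le_sum
            (f := fun i => ∑ x : Fin n, (if Bad1 φ G i x then (1 : ℝ) else 0))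
              (fun i _ => Finset.sum_nonneg fun x _ => by split_ifs <;> norm_num)
              (Finset.mem_univ i)
    linarith
  · have h5 : (1 : ℝ) ≤ ∑ i : ZMod 5, ∑ j : ZMod 5, ∑ l : ZMod 5, (if Far i j ∧ Far j l then
        ∑ a : Fin (k i), ∑ b : Fin (k l), (if Bad2 φ G i j l a b then (1 : ℝ) else 0) else 0) := by
      calc (1 : ℝ) = (if Bad2 φ G i j l a b then (1 : ℝ) else 0) := by rw [if_pos h]
        _ ≤ ∑ b : Fin (k l), (if Bad2 φ G i j l a b then (1 : ℝ) else 0) :=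
            Finset.single_le_sum (f := fun b => (if Bad2 φ G i j l a b then (1 : ℝ) else 0))
              (fun x _ => by split_ifs <;> norm_num) (Finset.mem_univ b)
        _ ≤ ∑ a : Fin (k i), ∑ b : Fin (k l), (if Bad2 φ G i j l a b then (1 : ℝ) else 0) :=
            Finset.single_le_sum
              (f := fun a => ∑ b : Fin (k l), (if Bad2 φ G i j l a b then (1 : ℝ) else 0))
              (fun i _ => Finset.sum_nonneg fun x _ => by split_ifs <;> norm_num)
              (Finset.mem_univ a)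
        _ = (if Far i j ∧ Far j l then ∑ a : Fin (k i), ∑ b : Fin (k l),
              (if Bad2 φ G i j l a b then (1 : ℝ) else 0) else 0) := by rw [if_pos ⟨h3, h4⟩]
        _ ≤ ∑ l : ZMod 5, (if Far i j ∧ Far j l then ∑ a : Fin (k i), ∑ b : Fin (k l),
              (if Bad2 φ G i j l a b then (1 : ℝ) else 0) else 0) :=
            Finset.single_le_sum (f := fun l => (if Far i j ∧ Far j l then ∑ a : Fin (k i),
              ∑ b : Fin (k l), (if Bad2 φ G i j l a b then (1 : ℝ) else 0) else 0))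
              (fun l _ => e2' i j l) (Finset.mem_univ l)
        _ ≤ ∑ j : ZMod 5, ∑ l : ZMod 5, (if Far i j ∧ Far j l then ∑ a : Fin (k i),
              ∑ b : Fin (k l), (if Bad2 φ G i j l a b then (1 : ℝ) else 0) else 0) :=
            Finset.single_le_sum (f := fun j => ∑ l : ZMod 5, (if Far i j ∧ Far j l then
              ∑ a : Fin (k i), ∑ b : Fin (k l),
                (if Bad2 φ G i j l a b then (1 : ℝ) else 0) else 0))
              (fun j _ => Finset.sum_nonneg fun l _ => e2' i j l) (Finset.mem_univ j)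
        _ ≤ _ := Finset.single_le_sum (f := fun i => ∑ j : ZMod 5, ∑ l : ZMod 5,
              (if Far i j ∧ Far j l then ∑ a : Fin (k i), ∑ b : Fin (k l),
                (if Bad2 φ G i j l a b then (1 : ℝ) else 0) else 0))
              (fun i _ => Finset.sum_nonneg fun j _ => Finset.sum_nonneg fun l _ => e2' i j l)
              (Finset.mem_univ i)
    linarith

theorem st_P1 (ha : ST_P0a) (hb : ST_P0b) (hc : ST_P0c) : ST_P1 := by
  intro n p k h0 h1 hk hn
  have hv : 0 < vk k := by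
    unfold vk
    exact Finset.sum_pos (fun i _ => hk i) Finset.univ_nonempty
  have hmu : 0 < mu n p k := by
    unfold mu
    have : 0 < n.descFactorial (vk k) := Nat.descFactorial_pos.2 (by omega)
    positivity
  set μ := mu n p k with hμ
  let Y : SimpleGraph (Fin n) → ℝ := fun G => ∑ φ : Role k ↪ Fin n, ind (Ef φ) G * badSum φ G
  rw [one_sub_gnp ha]
  have hpt : ∀ G : SimpleGraph (Fin n), (if G ∈ {G : SimpleGraph (Fin n) | HasConf G}
      then (0 : ℝ) else 1) ≤
      (fun G => (fun G => (fun G => 4 / μ ^ 2 * (X n k G * X n k G)) G -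
        (fun G => 8 / μ * X n k G) G) G + (fun G => (fun _ => (4 : ℝ)) G +
          (fun G => 2 / μ * Y G) G) G) G := by
    intro G
    have hY0 : ∀ φ : Role k ↪ Fin n, 0 ≤ badSum φ G := by
      intro φ
      unfold badSum
      refine add_nonneg (Finset.sum_nonneg fun i _ => Finset.sum_nonneg fun x _ => by
        split_ifs <;> norm_num) (Finset.sum_nonneg fun i _ => Finset.sum_nonneg fun j _ =>
        Finset.sum_nonneg fun l _ => ?_)
      split_ifs
      · exact Finset.sum_nonneg fun a _ => Finset.sum_nonneg fun b _ => by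
          split_ifs <;> norm_num
      · exact le_rfl
    have hY : 0 ≤ Y G := Finset.sum_nonneg fun φ _ => mul_nonneg (ind_nonneg _ _) (hY0 φ)
    have hsq : 0 ≤ 4 / μ ^ 2 * (X n k G - μ) ^ 2 := by positivity
    have heq : (4 / μ ^ 2 * (X n k G * X n k G) - 8 / μ * X n k G) + (4 + 2 / μ * Y G) =
        4 / μ ^ 2 * (X n k G - μ) ^ 2 + 2 / μ * Y G := by
      field_simp
      ring
    simp only
    rw [heq]
    have h2Y : 0 ≤ 2 / μ * Y G := by positivity
    by_cases hG : HasConf G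
    · rw [if_pos (show G ∈ {G : SimpleGraph (Fin n) | HasConf G} from hG)]
      linarith
    · rw [if_neg (show G ∉ {G : SimpleGraph (Fin n) | HasConf G} from hG)]
      have hXY : X n k G ≤ Y G := by
        refine Finset.sum_le_sum fun φ _ => ?_
        by_cases hφ : ind (Ef φ) G = 0
        · rw [hφ]; simp
        · have hbad : 1 ≤ badSum φ G := by
            apply badSum_ge_one
            by_contra hcon
            push Not at hcon
            exact hG (conf_of_good hk φ hφ hcon.1 (fun i j l a b h3 h4 =>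
              hcon.2 i j l a b h3 h4))
          exact le_mul_of_one_le_right (ind_nonneg _ _) hbad
      rcases le_or_gt (X n k G) (μ / 2) with hX | hX
      · have h3 : (μ / 2) ^ 2 ≤ (X n k G - μ) ^ 2 := by nlinarith
        have h4 : 1 ≤ 4 / μ ^ 2 * (X n k G - μ) ^ 2 := by
          rw [div_mul_eq_mul_div, le_div_iff₀ (by positivity)]
          nlinarith
        linarith
      · have h3 : 1 ≤ 2 / μ * Y G := by
          rw [div_mul_eq_mul_div, le_div_iff₀ hmu]
          linarith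
        linarith
  refine (Ex_mono h0.le h1.le hpt).trans ?_
  rw [Ex_add, Ex_sub, Ex_add, Ex_mul, Ex_mul, Ex_mul, Ex_X hb hc]
  have h4 : Ex n p (fun _ => (4 : ℝ)) = 4 := by
    have := Ex_mul (n := n) (p := p) 4 (fun _ => (1 : ℝ))
    rw [ha n p] at this
    simpa using this
  rw [h4, ← hμ]
  have h5 := Ex_X_sq (n := n) (p := p) (k := k) hb hc h0 h1 hn hv
  have h6 := ex_badSum (n := n) (p := p) (k := k) hb hc h0 h1
  rw [← hμ] at h5 h6
  have h7 : 4 / μ ^ 2 * Ex n p (fun G => X n k G * X n k G) ≤ 4 * (1 + tau n p k) := by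
    calc 4 / μ ^ 2 * Ex n p (fun G => X n k G * X n k G)
        ≤ 4 / μ ^ 2 * (μ ^ 2 * (1 + tau n p k)) := mul_le_mul_of_nonneg_left h5 (by positivity)
      _ = _ := by field_simp
  have h8 : 2 / μ * Ex n p Y ≤ 2 * bad n p k := by
    calc 2 / μ * Ex n p Y ≤ 2 / μ * (μ * bad n p k) := mul_le_mul_of_nonneg_left h6 (by positivity)
      _ = _ := by field_simp
  have h9 : 8 / μ * μ = 8 := by field_simp
  linarith

end Pool.Agent.Helper58.RC
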