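import Pool.Agent.Helper58.RC.Count

/-! # First and second moment of the number of copies -/

open scoped Classical

namespace Pool.Agent.Helper58.RC

open Pool.Agent.Helper93.RC

variable {n : ℕ} {p : ℝ} {k : ZMod 5 → ℕ}

/-- number of copies -/
noncomputable def X (n : ℕ) (k : ZMod 5 → ℕ) (G : SimpleGraph (Fin n)) : ℝ :=
  ∑ φ : Role k ↪ Fin n, ind (Ef φ) G

/-- its expectation -/
noncomputable def mu (n : ℕ) (p : ℝ) (k : ZMod 5 → ℕ) : ℝ :=
  (n.descFactorial (vk k) : ℝ) * p ^ (E0 k).card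

theorem Ex_X (hb : ST_P0b) (hc : ST_P0c) : Ex n p (X n k) = mu n p k := by
  unfold X mu
  rw [Ex_sum, Finset.sum_congr rfl (fun φ _ => by
    rw [Ex_ind hb hc (Ef φ) Ef_not_diag, card_Ef])]
  rw [Finset.sum_const, Finset.card_univ, card_emb, nsmul_eq_mul]

theorem eT_empty : eT (∅ : Finset (Role k)) = 0 := by
  simp [eT]

theorem sum_all (n : ℕ) (p : ℝ) (k : ZMod 5 → ℕ) :
    ∑ T : Finset (Role k), (2 * (vk k : ℝ) / n) ^ T.card * (p⁻¹) ^ eT T = 1 + tau n p k := by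
  unfold tau
  have h := Finset.sum_filter_add_sum_filter_not (Finset.univ : Finset (Finset (Role k)))
    (fun T => T.Nonempty) (fun T => (2 * (vk k : ℝ) / n) ^ T.card * (p⁻¹) ^ eT T)
  rw [← h, add_comm]
  congr 1
  have h1 : (Finset.univ : Finset (Finset (Role k))).filter (fun T => ¬ T.Nonempty) = {∅} := by
    ext T
    simp [Finset.not_nonempty_iff_eq_empty]
  rw [h1, Finset.sum_singleton, eT_empty]
  simp

theorem inner_le (h0 : 0 < p) (h1 : p < 1) (hn : 2 * vk k ≤ n) (hv : 0 < vk k)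
    (φ : Role k ↪ Fin n) :
    ∑ ψ : Role k ↪ Fin n, p ^ (Ef φ ∪ Ef ψ).card ≤
      (n.descFactorial (vk k) : ℝ) * p ^ (2 * (E0 k).card) * (1 + tau n p k) := by
  have hp : 1 ≤ p⁻¹ := (one_le_inv₀ h0).2 h1.le
  have hterm : ∀ ψ : Role k ↪ Fin n, p ^ (Ef φ ∪ Ef ψ).card ≤
      p ^ (2 * (E0 k).card) * (p⁻¹) ^ eT (ovl φ ψ) := by
    intro ψ
    have h2 := Finset.card_union_add_card_inter (Ef φ) (Ef ψ)
    rw [card_Ef, card_Ef] at h2
    have h3 := card_inter_le φ ψ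
    have h4 : p ^ (Ef φ ∪ Ef ψ).card = p ^ (2 * (E0 k).card) * (p⁻¹) ^ (Ef φ ∩ Ef ψ).card := by
      rw [inv_pow, ← div_eq_mul_inv, eq_div_iff (pow_pos h0 _).ne', ← pow_add]
      congr 1
      omega
    rw [h4]
    exact mul_le_mul_of_nonneg_left (pow_le_pow_right₀ hp h3) (pow_nonneg h0.le _)
  calc ∑ ψ : Role k ↪ Fin n, p ^ (Ef φ ∪ Ef ψ).card
      ≤ ∑ ψ : Role k ↪ Fin n, p ^ (2 * (E0 k).card) * (p⁻¹) ^ eT (ovl φ ψ) :=
        Finset.sum_le_sum fun ψ _ => hterm ψ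
    _ = ∑ T : Finset (Role k), ∑ ψ ∈ Finset.univ.filter (fun ψ : Role k ↪ Fin n => ovl φ ψ = T),
          p ^ (2 * (E0 k).card) * (p⁻¹) ^ eT (ovl φ ψ) := by
        rw [← Finset.sum_fiberwise (Finset.univ : Finset (Role k ↪ Fin n)) (fun ψ => ovl φ ψ)]
    _ = ∑ T : Finset (Role k),
          ((Finset.univ.filter (fun ψ : Role k ↪ Fin n => ovl φ ψ = T)).card : ℝ) *
            (p ^ (2 * (E0 k).card) * (p⁻¹) ^ eT T) := by
        refine Finset.sum_congr rfl fun T _ => ?_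
        rw [Finset.sum_congr rfl (g := fun _ => p ^ (2 * (E0 k).card) * (p⁻¹) ^ eT T)]
        · rw [Finset.sum_const, nsmul_eq_mul]
        · intro ψ hψ
          rw [(Finset.mem_filter.1 hψ).2]
    _ ≤ ∑ T : Finset (Role k), ((n.descFactorial (vk k) : ℝ) *
          (2 * (vk k : ℝ) / n) ^ T.card) * (p ^ (2 * (E0 k).card) * (p⁻¹) ^ eT T) := by
        refine Finset.sum_le_sum fun T _ => ?_
        have hT : T.card ≤ vk k := by
          rw [← card_role]
          exact Finset.card_le_univ T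
        refine mul_le_mul_of_nonneg_right ?_ (by positivity)
        calc ((Finset.univ.filter (fun ψ : Role k ↪ Fin n => ovl φ ψ = T)).card : ℝ)
            ≤ ((vk k ^ T.card * n.descFactorial (vk k - T.card) : ℕ) : ℝ) := by
              exact_mod_cast card_ovl_le φ T
          _ ≤ _ := count_real hn hv hT
    _ = (n.descFactorial (vk k) : ℝ) * p ^ (2 * (E0 k).card) *
          ∑ T : Finset (Role k), (2 * (vk k : ℝ) / n) ^ T.card * (p⁻¹) ^ eT T := by
        rw [Finset.mul_sum]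
        refine Finset.sum_congr rfl fun T _ => ?_
        ring
    _ = _ := by rw [sum_all]

theorem Ex_X_sq (hb : ST_P0b) (hc : ST_P0c) (h0 : 0 < p) (h1 : p < 1) (hn : 2 * vk k ≤ n)
    (hv : 0 < vk k) :
    Ex n p (fun G => X n k G * X n k G) ≤ mu n p k ^ 2 * (1 + tau n p k) := by
  have e1 : (fun G => X n k G * X n k G) =
      fun G => ∑ φ : Role k ↪ Fin n, (fun G => ∑ ψ : Role k ↪ Fin n, ind (Ef φ ∪ Ef ψ) G) G := by
    ext G
    unfold X
    rw [Finset.sum_mul]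
    refine Finset.sum_congr rfl fun φ _ => ?_
    rw [Finset.mul_sum]
    exact Finset.sum_congr rfl fun ψ _ => ind_mul _ _ _
  have e2 : ∀ φ : Role k ↪ Fin n,
      Ex n p (fun G => ∑ ψ : Role k ↪ Fin n, ind (Ef φ ∪ Ef ψ) G) =
        ∑ ψ : Role k ↪ Fin n, p ^ (Ef φ ∪ Ef ψ).card := by
    intro φ
    rw [Ex_sum]
    refine Finset.sum_congr rfl fun ψ _ => Ex_ind hb hc _ ?_
    intro e he
    rcases Finset.mem_union.1 he with he | he
    · exact Ef_not_diag e he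
    · exact Ef_not_diag e he
  rw [e1, Ex_sum]
  calc ∑ φ : Role k ↪ Fin n, Ex n p (fun G => ∑ ψ : Role k ↪ Fin n, ind (Ef φ ∪ Ef ψ) G)
      = ∑ φ : Role k ↪ Fin n, ∑ ψ : Role k ↪ Fin n, p ^ (Ef φ ∪ Ef ψ).card :=
        Finset.sum_congr rfl fun φ _ => e2 φ
    _ ≤ ∑ _φ : Role k ↪ Fin n,
          (n.descFactorial (vk k) : ℝ) * p ^ (2 * (E0 k).card) * (1 + tau n p k) :=
        Finset.sum_le_sum fun φ _ => inner_le h0 h1 hn hv φ
    _ = mu n p k ^ 2 * (1 + tau n p k) := by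
        rw [Finset.sum_const, Finset.card_univ, card_emb, nsmul_eq_mul]
        unfold mu
        ring

end Pool.Agent.Helper58.RC
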